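import Pool.Agent.Lib.MP_e12dda_al.Chain

set_option autoImplicit false

namespace Pool.Agent.Lib.MP_e12dda_al.Ins

open Cardinal Module

variable {p : ℕ} [Fact p.Prime]

theorem pinv_pos : (0 : ℝ) < (p : ℝ)⁻¹ := by
  have := (Fact.out : p.Prime).pos
  positivity

theorem pinv_lt_one : (p : ℝ)⁻¹ < 1 := by
  have := (Fact.out : p.Prime).one_lt
  exact inv_lt_one_of_one_lt₀ (by exact_mod_cast this)

theorem norm_p' : ‖(p : ℚ_[p])‖ = (p : ℝ)⁻¹ := Padic.norm_p

theorem p_ne : (p : ℚ_[p]) ≠ 0 := by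
  exact_mod_cast (Fact.out : p.Prime).ne_zero


/-- p-adic null families indexed by finite words of natural numbers -/
def V (p : ℕ) [Fact p.Prime] : Submodule ℚ_[p] (List ℕ → ℚ_[p]) where
  carrier := {y | ∀ ε : ℝ, 0 < ε → {b | ε ≤ ‖y b‖}.Finite}
  zero_mem' := by
    intro ε hε
    convert Set.finite_empty
    ext b
    simp [hε]
  add_mem' := by
    intro x y hx hy ε hε
    refine ((hx ε hε).union (hy ε hε)).subset ?_
    intro b hb
    simp only [Set.mem_ofPred_eq, Pi.add_apply] at hb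
    rcases le_max_iff.mp (hb.trans (IsUltrametricDist.norm_add_le_max (x b) (y b))) with h | h
    · exact Or.inl h
    · exact Or.inr h
  smul_mem' := by
    intro k y hy ε hε
    by_cases hk : k = 0
    · subst hk
      convert Set.finite_empty
      ext b
      simp [hε]
    · have hk' : 0 < ‖k‖ := norm_pos_iff.mpr hk
      refine (hy (ε / ‖k‖) (div_pos hε hk')).subset ?_
      intro b hb
      simp only [Set.mem_ofPred_eq, Pi.smul_apply, norm_smul] at hb ⊢
      rwa [div_le_iff₀' hk']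

def Ball (y : (V p)) : Prop := ∀ b, ‖(y : List ℕ → ℚ_[p]) b‖ ≤ 1

theorem V_bounded (y : (V p)) : ∃ C : ℝ, 1 ≤ C ∧ ∀ b, ‖(y : List ℕ → ℚ_[p]) b‖ ≤ C := by
  have h := y.2 1 one_pos
  obtain ⟨C, hC⟩ := (h.image (fun b => ‖(y : List ℕ → ℚ_[p]) b‖)).bddAbove
  refine ⟨max 1 C, le_max_left _ _, ?_⟩
  intro b
  by_cases hb : 1 ≤ ‖(y : List ℕ → ℚ_[p]) b‖
  · exact (hC ⟨b, hb, rfl⟩).trans (le_max_right _ _)
  · exact (not_le.mp hb).le.trans (le_max_left _ _)

theorem coe_sum_apply {ι : Type} (s : Finset ι) (f : ι → (V p)) (b : List ℕ) :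
    ((∑ a ∈ s, f a : (V p)) : List ℕ → ℚ_[p]) b = ∑ a ∈ s, ((f a : (V p)) : List ℕ → ℚ_[p]) b := by
  rw [AddSubmonoidClass.coe_finsetSum, Finset.sum_apply]

/-- codes of the initial segments of `s` -/
def Aset (s : ℕ → Bool) : Set ℕ := {m | ∃ k, m = Encodable.encode ((List.range k).map s)}

open Classical in
/-- the underlying function of the generic operators -/
noncomputable def lamFun (s : ℕ → Bool) (y : List ℕ → ℚ_[p]) : List ℕ → ℚ_[p]
  | [] => 0
  | m :: b => if m ∈ Aset s then (p : ℚ_[p]) ^ m * y b else 0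

theorem lamFun_norm_le (s : ℕ → Bool) (y : List ℕ → ℚ_[p]) (m : ℕ) (b : List ℕ) :
    ‖lamFun s y (m :: b)‖ ≤ (p : ℝ)⁻¹ ^ m * ‖y b‖ := by
  simp only [lamFun]
  split_ifs
  · rw [norm_mul, norm_pow]
    rw [norm_p']
  · simp only [norm_zero]
    have := pinv_pos (p := p)
    positivity

theorem lamFun_mem (s : ℕ → Bool) (y : (V p)) : lamFun s y ∈ (V p) := by
  intro ε hε
  obtain ⟨C, hC1, hC⟩ := V_bounded y
  obtain ⟨N, hN⟩ := exists_pow_lt_of_lt_one (div_pos hε (lt_of_lt_of_le one_pos hC1))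
    (pinv_lt_one (p := p))
  have hfin : (⋃ m ∈ Finset.range N, (List.cons m) '' {b | ε ≤ ‖(y : List ℕ → ℚ_[p]) b‖}).Finite := by
    refine Set.Finite.biUnion (Finset.finite_toSet _) ?_
    intro m _
    exact (y.2 ε hε).image _
  refine hfin.subset ?_
  intro b hb
  simp only [Set.mem_ofPred_eq] at hb
  cases b with
  | nil => simp [lamFun, not_le.mpr hε] at hb
  | cons m b =>
    have h1 := hb.trans (lamFun_norm_le s (y : List ℕ → ℚ_[p]) m b)
    have h2 : m < N := by
      by_contra hmN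
      have h3 : (p : ℝ)⁻¹ ^ m ≤ (p : ℝ)⁻¹ ^ N :=
        pow_le_pow_of_le_one pinv_pos.le pinv_lt_one.le (not_lt.mp hmN)
      have h4 : (p : ℝ)⁻¹ ^ m * ‖(y : List ℕ → ℚ_[p]) b‖ < ε := by
        calc (p : ℝ)⁻¹ ^ m * ‖(y : List ℕ → ℚ_[p]) b‖ ≤ (p : ℝ)⁻¹ ^ N * C :=
              mul_le_mul h3 (hC b) (norm_nonneg _) (pow_nonneg pinv_pos.le _)
          _ < (ε / C) * C := by
              apply mul_lt_mul_of_pos_right hN (lt_of_lt_of_le one_pos hC1)
          _ = ε := by field_simp
      exact absurd h1 (not_le.mpr h4)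
    have h3 : ε ≤ ‖(y : List ℕ → ℚ_[p]) b‖ := by
      refine h1.trans ?_
      have : (p : ℝ)⁻¹ ^ m ≤ 1 := pow_le_one₀ pinv_pos.le pinv_lt_one.le
      exact mul_le_of_le_one_left (norm_nonneg _) this
    simp only [Set.mem_iUnion]
    exact ⟨m, Finset.mem_range.mpr h2, b, h3, rfl⟩

/-- the generic operators -/
noncomputable def lam (s : ℕ → Bool) : Module.End ℚ_[p] (V p) where
  toFun y := ⟨lamFun s y, lamFun_mem s y⟩
  map_add' x y := by
    ext b
    cases b with
    | nil => simp [lamFun]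
    | cons m b =>
      simp only [lamFun, Submodule.coe_add, Pi.add_apply]
      split_ifs
      · ring
      · simp
  map_smul' k y := by
    ext b
    cases b with
    | nil => simp [lamFun]
    | cons m b =>
      simp only [lamFun, Submodule.coe_smul, Pi.smul_apply, smul_eq_mul, RingHom.id_apply]
      split_ifs
      · ring
      · simp

theorem lam_apply (s : ℕ → Bool) (y : (V p)) : ((lam s y : (V p)) : List ℕ → ℚ_[p]) = lamFun s y := rfl

theorem lam_ball (s : ℕ → Bool) (y : (V p)) (hy : Ball y) : Ball (lam s y) := by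
  intro b
  rw [lam_apply]
  cases b with
  | nil => simp [lamFun]
  | cons m b =>
    refine (lamFun_norm_le s (y : List ℕ → ℚ_[p]) m b).trans ?_
    have : (p : ℝ)⁻¹ ^ m ≤ 1 := pow_le_one₀ pinv_pos.le pinv_lt_one.le
    exact mul_le_one₀ this (norm_nonneg _) (hy b)

theorem lam_indep : IndepOps (lam (p := p)) := by
  classical
  intro z hz
  ext s b
  simp only [Finsupp.coe_zero, Pi.zero_apply, ZeroMemClass.coe_zero]
  -- separate `s` from the finitely many other labels
  have hk : ∃ k : ℕ, ∀ s' ∈ z.support, s' ≠ s → ∃ i < k, s i ≠ s' i := by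
    have : ∀ T : Finset (ℕ → Bool), ∃ k : ℕ, ∀ s' ∈ T, s' ≠ s → ∃ i < k, s i ≠ s' i := by
      intro T
      induction T using Finset.induction_on with
      | empty => exact ⟨0, by simp⟩
      | insert a T _ ih =>
        obtain ⟨k, hk⟩ := ih
        by_cases ha : a = s
        · refine ⟨k, ?_⟩
          intro s' hs' hne
          rcases Finset.mem_insert.mp hs' with rfl | hs'
          · exact absurd ha hne
          · exact hk s' hs' hne
        · obtain ⟨i, hi⟩ : ∃ i, s i ≠ a i := by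
            by_contra hcon
            push Not at hcon
            exact ha (funext fun i => (hcon i).symm)
          refine ⟨max k (i + 1), ?_⟩
          intro s' hs' hne
          rcases Finset.mem_insert.mp hs' with rfl | hs'
          · exact ⟨i, lt_of_lt_of_le (Nat.lt_succ_self i) (le_max_right _ _), hi⟩
          · obtain ⟨i, hi1, hi2⟩ := hk s' hs' hne
            exact ⟨i, lt_of_lt_of_le hi1 (le_max_left _ _), hi2⟩
    exact this _
  obtain ⟨k, hk⟩ := hk
  let m : ℕ := Encodable.encode ((List.range k).map s)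
  have hm : m ∈ Aset s := ⟨k, rfl⟩
  have hm' : ∀ s' ∈ z.support, s' ≠ s → m ∉ Aset s' := by
    rintro s' hs' hne ⟨k', hk'⟩
    have h1 := Encodable.encode_injective hk'
    have h2 : k = k' := by
      have := congrArg List.length h1
      simpa using this
    subst h2
    obtain ⟨i, hi1, hi2⟩ := hk s' hs' hne
    apply hi2
    have h3 := List.map_inj_left.mp h1 i (List.mem_range.mpr hi1)
    exact h3
  have h0 : ((z.sum (fun s y => lam s y) : (V p)) : List ℕ → ℚ_[p]) (m :: b) = 0 := by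
    rw [hz]; rfl
  have h1 : ((z.sum (fun s y => lam s y) : (V p)) : List ℕ → ℚ_[p]) (m :: b) =
      (p : ℚ_[p]) ^ m * ((z s : (V p)) : List ℕ → ℚ_[p]) b := by
    rw [Finsupp.sum]
    rw [coe_sum_apply, Finset.sum_eq_single s]
    · rw [lam_apply]
      simp only [lamFun]
      rw [if_pos hm]
    · intro s' hs' hne
      rw [lam_apply]
      simp only [lamFun]
      exact if_neg (hm' s' hs' hne)
    · intro hs
      rw [Finsupp.notMem_support_iff.mp hs, map_zero]
      rfl
  rw [h1] at h0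
  rcases mul_eq_zero.mp h0 with h | h
  · exact absurd h (pow_ne_zero _ p_ne)
  · exact h

/-- unit vectors -/
noncomputable def e (b : List ℕ) : (V p) := ⟨Pi.single b 1, by
  classical
  intro ε hε
  refine (Set.finite_singleton b).subset ?_
  intro b' hb'
  by_contra hne
  simp only [Set.mem_ofPred_eq] at hb'
  rw [Pi.single_eq_of_ne (by simpa using hne)] at hb'
  simp [not_le.mpr hε] at hb'⟩

theorem e_self (b : List ℕ) : ((e b : (V p)) : List ℕ → ℚ_[p]) b = 1 := by
  simp [e]

theorem e_ne (b b' : List ℕ) (h : b' ≠ b) : ((e b : (V p)) : List ℕ → ℚ_[p]) b' = 0 := by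
  simp [e, Pi.single_eq_of_ne h]

theorem e_ball (b : List ℕ) : Ball (e (p := p) b) := by
  intro b'
  by_cases h : b' = b
  · subst h; rw [e_self]; simp
  · rw [e_ne _ _ h]; simp

theorem e_ne_zero (b : List ℕ) : e (p := p) b ≠ 0 := by
  intro h
  have := e_self (p := p) b
  rw [h] at this
  simp at this

/-- splitting off finitely many coordinates -/
theorem split (y : (V p)) (ε : ℝ) (hε : 0 < ε) :
    ∃ A : Finset (List ℕ), ∀ b,
      ‖((y - ∑ b ∈ A, ((y : List ℕ → ℚ_[p]) b) • e b : (V p)) : List ℕ → ℚ_[p]) b‖ ≤ ε := by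
  classical
  refine ⟨(y.2 ε hε).toFinset, ?_⟩
  intro b
  have h2 : ((∑ a ∈ (y.2 ε hε).toFinset, ((y : List ℕ → ℚ_[p]) a) • e a : (V p)) :
      List ℕ → ℚ_[p]) b = ∑ a ∈ (y.2 ε hε).toFinset,
        ((y : List ℕ → ℚ_[p]) a) * ((e a : (V p)) : List ℕ → ℚ_[p]) b := by
    rw [coe_sum_apply]
    rfl
  rw [Submodule.coe_sub, Pi.sub_apply, h2]
  by_cases hb : b ∈ (y.2 ε hε).toFinset
  · rw [Finset.sum_eq_single b]
    · rw [e_self, mul_one, sub_self, norm_zero]; exact hε.le
    · intro a _ hab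
      rw [e_ne _ _ (Ne.symm hab), mul_zero]
    · intro h; exact absurd hb h
  · rw [Finset.sum_eq_zero, sub_zero]
    · have : ¬ (ε ≤ ‖(y : List ℕ → ℚ_[p]) b‖) := by simpa using hb
      exact (not_le.mp this).le
    · intro a ha
      have : b ≠ a := fun h => hb (h ▸ ha)
      rw [e_ne _ _ this, mul_zero]

end Pool.Agent.Lib.MP_e12dda_al.Ins
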