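import Mathlib

set_option autoImplicit false

namespace Pool.Agent.Lib.MP_e12dda_al.Ins

section defs

variable {G : Type} [AddCommGroup G]

/-- The `q`-height of `g`: the largest `n` with `g ∈ q ^ n G`, and `∞` if there is no largest. -/
noncomputable def height (q : ℕ) (g : G) : ℕ∞ :=
  ⨆ n : {n : ℕ // ∃ y : G, q ^ n • y = g}, ((n : ℕ) : ℕ∞)

/-- `g` and `h` have the same characteristic. -/
def SameChar (g h : G) : Prop := ∀ q : ℕ, q.Prime → height q g = height q h

/-- `χ(g) ≤ χ(h)`. -/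
def CharLe (g h : G) : Prop := ∀ q : ℕ, q.Prime → height q g ≤ height q h

/-- The characteristics of `g` and `h` differ in only finitely many primes, and there both heights
are finite. -/
def SameType (g h : G) : Prop :=
  {q : ℕ | q.Prime ∧ height q g ≠ height q h}.Finite ∧
    ∀ q : ℕ, q.Prime → height q g ≠ height q h → height q g ≠ ⊤ ∧ height q h ≠ ⊤

variable (G)

def IsTorsionFreeGroup : Prop := ∀ (n : ℕ) (g : G), 1 ≤ n → g ≠ 0 → n • g ≠ 0

def IsHomogeneousGroup : Prop := ∀ g h : G, g ≠ 0 → h ≠ 0 → SameType g h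

def IsTransitiveGroup : Prop := ∀ g h : G, SameChar g h → ∃ α : G ≃+ G, α g = h

def IsFullyTransitiveGroup : Prop := ∀ g h : G, CharLe g h → ∃ φ : G →+ G, φ g = h

end defs

theorem le_height_iff {G : Type} [AddCommGroup G] (q : ℕ) (g : G) (k : ℕ) :
    (k : ℕ∞) ≤ height q g ↔ ∃ y : G, q ^ k • y = g := by
  constructor
  · intro h
    by_contra hcon
    have hlt : ∀ n : {n : ℕ // ∃ y : G, q ^ n • y = g}, (n : ℕ) < k := by
      rintro ⟨n, y, hy⟩
      by_contra hn
      apply hcon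
      refine ⟨q ^ (n - k) • y, ?_⟩
      rw [smul_smul, ← pow_add, Nat.add_sub_cancel' (not_lt.mp hn)]
      exact hy
    have hk : 0 < k := lt_of_le_of_lt (Nat.zero_le _) (hlt ⟨0, g, by simp⟩)
    have h1 : height q g ≤ ((k - 1 : ℕ) : ℕ∞) := by
      refine iSup_le fun n => ?_
      have := hlt n
      exact_mod_cast (by omega : (n : ℕ) ≤ k - 1)
    have h2 : (k : ℕ∞) ≤ ((k - 1 : ℕ) : ℕ∞) := h.trans h1
    have h3 : k ≤ k - 1 := by exact_mod_cast h2
    omega
  · intro h
    exact le_iSup (fun n : {n : ℕ // ∃ y : G, q ^ n • y = g} => ((n : ℕ) : ℕ∞)) ⟨k, h⟩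

theorem height_eq_top {G : Type} [AddCommGroup G] (q : ℕ) (g : G)
    (h : ∀ k : ℕ, ∃ y : G, q ^ k • y = g) : height q g = ⊤ := by
  rw [ENat.eq_top_iff_forall_ge]
  intro k
  exact (le_height_iff q g k).mpr (h k)

theorem height_ne_top {G : Type} [AddCommGroup G] (q : ℕ) (g : G) (N : ℕ)
    (h : ∀ k : ℕ, (∃ y : G, q ^ k • y = g) → k ≤ N) : height q g ≠ ⊤ := by
  have h1 : height q g ≤ (N : ℕ∞) := by
    refine iSup_le fun n => ?_
    exact_mod_cast h n n.2
  exact ne_top_of_le_ne_top (ENat.coe_ne_top N) h1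

end Pool.Agent.Lib.MP_e12dda_al.Ins
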