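import Pool.Agent.Lib.MP_e12dda_al.Ins.Concrete

set_option autoImplicit false

namespace Pool.Agent.Lib.MP_e12dda_al.Ins

open Cardinal Module Filter Topology

variable {p : ℕ} [Fact p.Prime]

/-- all coordinates have norm at most `ε` -/
def BallR (ε : ℝ) (y : (V p)) : Prop := ∀ b, ‖(y : List ℕ → ℚ_[p]) b‖ ≤ ε

theorem ballR_add {ε : ℝ} {x y : (V p)} (hx : BallR ε x) (hy : BallR ε y) : BallR ε (x + y) := by
  intro b
  rw [Submodule.coe_add, Pi.add_apply]
  exact (IsUltrametricDist.norm_add_le_max _ _).trans (max_le (hx b) (hy b))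

theorem ballR_neg {ε : ℝ} {x : (V p)} (hx : BallR ε x) : BallR ε (-x) := by
  intro b
  rw [Submodule.coe_neg, Pi.neg_apply, norm_neg]
  exact hx b

theorem ballR_sub {ε : ℝ} {x y : (V p)} (hx : BallR ε x) (hy : BallR ε y) : BallR ε (x - y) := by
  rw [sub_eq_add_neg]
  exact ballR_add hx (ballR_neg hy)

theorem ballR_smul {ε : ℝ} {x : (V p)} (k : ℚ_[p]) (hx : BallR ε x) : BallR (‖k‖ * ε) (k • x) := by
  intro b
  rw [Submodule.coe_smul, Pi.smul_apply, norm_smul]
  exact mul_le_mul_of_nonneg_left (hx b) (norm_nonneg _)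

theorem ballR_zero {ε : ℝ} (hε : 0 ≤ ε) : BallR (p := p) ε 0 := by
  intro b
  simpa using hε

theorem ball_iff (y : (V p)) : Ball y ↔ BallR 1 y := Iff.rfl

theorem norm_p_pow (n : ℕ) : ‖(p : ℚ_[p]) ^ n‖ = (p : ℝ)⁻¹ ^ n := by
  rw [norm_pow, norm_p']

theorem pinv_pow_pos (n : ℕ) : (0 : ℝ) < (p : ℝ)⁻¹ ^ n := pow_pos pinv_pos n

theorem pinv_pow_ne (n : ℕ) : (p : ℝ)⁻¹ ^ n ≠ 0 := (pinv_pow_pos n).ne'

/-- operators of norm at most one -/
def Adm (T : Module.End ℚ_[p] (V p)) : Prop := ∀ y, Ball y → Ball (T y)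

theorem adm_small (T : Module.End ℚ_[p] (V p)) (hT : Adm T) (n : ℕ) (y : (V p))
    (hy : BallR ((p : ℝ)⁻¹ ^ n) y) : BallR ((p : ℝ)⁻¹ ^ n) (T y) := by
  have h2 : (p : ℚ_[p]) ^ n ≠ 0 := pow_ne_zero _ p_ne
  have h3 : Ball (((p : ℚ_[p]) ^ n)⁻¹ • y) := by
    rw [ball_iff]
    have := ballR_smul (((p : ℚ_[p]) ^ n)⁻¹) hy
    rw [norm_inv, norm_p_pow, inv_mul_cancel₀ (pinv_pow_ne n)] at this
    exact this
  have h4 := ballR_smul ((p : ℚ_[p]) ^ n) ((ball_iff _).mp (hT _ h3))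
  rw [map_smul, smul_smul, mul_inv_cancel₀ h2, one_smul, norm_p_pow, mul_one] at h4
  exact h4

theorem eq_zero_of_small (y : (V p)) (h : ∀ n : ℕ, BallR ((p : ℝ)⁻¹ ^ n) y) : y = 0 := by
  ext b
  have h1 : ‖(y : List ℕ → ℚ_[p]) b‖ ≤ 0 := by
    refine ge_of_tendsto' (tendsto_pow_atTop_nhds_zero_of_lt_one (pinv_pos (p := p)).le
      pinv_lt_one) (fun n => h n b)
  simpa using h1

theorem adm_sub {T T' : Module.End ℚ_[p] (V p)} (h : Adm T) (h' : Adm T') : Adm (T - T') := by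
  intro y hy
  exact ballR_sub (h y hy) (h' y hy)

theorem adm_add {T T' : Module.End ℚ_[p] (V p)} (h : Adm T) (h' : Adm T') : Adm (T + T') := by
  intro y hy
  exact ballR_add (h y hy) (h' y hy)

theorem adm_smul {T : Module.End ℚ_[p] (V p)} (k : ℚ_[p]) (hk : ‖k‖ ≤ 1) (h : Adm T) :
    Adm (k • T) := by
  intro y hy b
  have := ballR_smul k ((ball_iff _).mp (h y hy)) b
  refine this.trans ?_
  rw [mul_one]; exact hk

theorem adm_mul {T T' : Module.End ℚ_[p] (V p)} (h : Adm T) (h' : Adm T') : Adm (T * T') := by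
  intro y hy
  exact h _ (h' y hy)

theorem adm_one : Adm (p := p) 1 := fun _ hy => hy

theorem adm_ext (T T' : Module.End ℚ_[p] (V p)) (h : Adm T) (h' : Adm T')
    (hE : ∀ b, T (e b) = T' (e b)) : T = T' := by
  rw [← sub_eq_zero]
  apply LinearMap.ext
  intro y
  rw [LinearMap.zero_apply]
  apply eq_zero_of_small
  intro n
  obtain ⟨A, hA⟩ := split y ((p : ℝ)⁻¹ ^ n) (pinv_pow_pos n)
  have h1 := adm_small (T - T') (adm_sub h h') n _ hA
  have h2 : (T - T') (∑ b ∈ A, ((y : List ℕ → ℚ_[p]) b) • e b) = 0 := by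
    rw [map_sum]
    apply Finset.sum_eq_zero
    intro b _
    rw [map_smul, LinearMap.sub_apply, hE, sub_self, smul_zero]
  rw [map_sub, h2, sub_zero] at h1
  exact h1

theorem summable_aux (y : (V p)) (c : List ℕ → (V p)) (hc : ∀ b, Ball (c b)) (m : List ℕ) :
    Summable (fun b => ((y : List ℕ → ℚ_[p]) b) * ((c b : (V p)) : List ℕ → ℚ_[p]) m) := by
  apply NonarchimedeanAddGroup.summable_of_tendsto_cofinite_zero
  rw [Metric.tendsto_nhds]
  intro ε hε
  have := y.2 ε hε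
  rw [Filter.eventually_cofinite]
  refine this.subset ?_
  intro b hb
  rw [Set.mem_ofPred_eq, dist_zero_right, not_lt, norm_mul] at hb
  refine hb.trans ?_
  exact mul_le_of_le_one_right (norm_nonneg _) (hc b m)

/-- the coordinatewise sum -/
noncomputable def extFun (c : List ℕ → (V p)) (y : (V p)) : List ℕ → ℚ_[p] :=
  fun m => ∑' b, ((y : List ℕ → ℚ_[p]) b) * ((c b : (V p)) : List ℕ → ℚ_[p]) m

theorem extFun_add (c : List ℕ → (V p)) (hc : ∀ b, Ball (c b)) (x y : (V p)) :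
    extFun c (x + y) = extFun c x + extFun c y := by
  funext m
  simp only [extFun, Pi.add_apply, Submodule.coe_add]
  rw [← (summable_aux x c hc m).tsum_add (summable_aux y c hc m)]
  congr 1
  funext b
  ring

theorem extFun_smul (c : List ℕ → (V p)) (k : ℚ_[p]) (y : (V p)) :
    extFun c (k • y) = k • extFun c y := by
  funext m
  simp only [extFun, Pi.smul_apply, Submodule.coe_smul, smul_eq_mul]
  rw [← tsum_mul_left]
  congr 1
  funext b
  ring

theorem extFun_e (c : List ℕ → (V p)) (b : List ℕ) : extFun c (e b) = c b := by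
  funext m
  simp only [extFun]
  rw [tsum_eq_single b]
  · rw [e_self, one_mul]
  · intro b' hb'
    rw [e_ne _ _ hb', zero_mul]

theorem extFun_norm (c : List ℕ → (V p)) (hc : ∀ b, Ball (c b)) (y : (V p)) (ε : ℝ) (hε : 0 ≤ ε)
    (hy : BallR ε y) (m : List ℕ) : ‖extFun c y m‖ ≤ ε := by
  apply IsUltrametricDist.norm_tsum_le_of_forall_le_of_nonneg hε
  intro b
  rw [norm_mul]
  refine (mul_le_of_le_one_right (norm_nonneg _) (hc b m)).trans (hy b)

theorem extFun_mem (c : List ℕ → (V p)) (hc : ∀ b, Ball (c b)) (y : (V p)) : extFun c y ∈ (V p) := by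
  intro ε hε
  obtain ⟨A, hA⟩ := split y (ε / 2) (by positivity)
  let x : (V p) := ∑ b ∈ A, ((y : List ℕ → ℚ_[p]) b) • e b
  let w : (V p) := ∑ b ∈ A, ((y : List ℕ → ℚ_[p]) b) • c b
  have hx : extFun c x = w := by
    let L : (V p) →ₗ[ℚ_[p]] (List ℕ → ℚ_[p]) :=
      { toFun := extFun c
        map_add' := extFun_add c hc
        map_smul' := extFun_smul c }
    have h1 : L x = ∑ b ∈ A, ((y : List ℕ → ℚ_[p]) b) • L (e b) := by
      simp only [x]
      rw [map_sum]
      apply Finset.sum_congr rfl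
      intro b _
      rw [map_smul]
    have h2 : L x = extFun c x := rfl
    rw [← h2, h1]
    simp only [w]
    rw [AddSubmonoidClass.coe_finsetSum]
    apply Finset.sum_congr rfl
    intro b _
    have : L (e b) = c b := extFun_e c b
    rw [this]
    rfl
  have hyx : extFun c y = (w : List ℕ → ℚ_[p]) + extFun c (y - x) := by
    rw [← hx, ← extFun_add c hc]
    congr 1
    abel
  refine (w.2 ε hε).subset ?_
  intro m hm
  rw [Set.mem_ofPred_eq] at hm ⊢
  rw [hyx, Pi.add_apply] at hm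
  have h3 := extFun_norm c hc (y - x) (ε / 2) (by positivity) hA m
  rcases le_max_iff.mp (hm.trans (IsUltrametricDist.norm_add_le_max _ _)) with h | h
  · exact h
  · exfalso; linarith

theorem exists_ext (c : List ℕ → (V p)) (hc : ∀ b, Ball (c b)) :
    ∃ T : Module.End ℚ_[p] (V p), Adm T ∧ ∀ b, T (e b) = c b := by
  refine ⟨{ toFun := fun y => ⟨extFun c y, extFun_mem c hc y⟩
            map_add' := fun x y => Subtype.ext (extFun_add c hc x y)
            map_smul' := fun k y => Subtype.ext (extFun_smul c k y) }, ?_, ?_⟩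
  · intro y hy m
    exact extFun_norm c hc y 1 zero_le_one hy m
  · intro b
    exact Subtype.ext (extFun_e c b)

/-- integral approximation -/
theorem int_approx (y : (V p)) (hy : Ball y) (n : ℕ) :
    ∃ z ∈ AddSubgroup.closure (Set.range e), BallR ((p : ℝ)⁻¹ ^ n) (y - z) := by
  classical
  obtain ⟨A, hA⟩ := split y ((p : ℝ)⁻¹ ^ n) (pinv_pow_pos n)
  have hz : ∀ b, ∃ k : ℤ, ‖(y : List ℕ → ℚ_[p]) b - (k : ℚ_[p])‖ ≤ (p : ℝ)⁻¹ ^ n := by
    intro b
    let t : ℤ_[p] := ⟨(y : List ℕ → ℚ_[p]) b, hy b⟩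
    refine ⟨(t.appr n : ℕ), ?_⟩
    have h1 := (PadicInt.norm_le_pow_iff_mem_span_pow (t - (t.appr n : ℤ_[p])) n).mpr
      (t.appr_spec n)
    have h2 : (p : ℝ) ^ (-n : ℤ) = (p : ℝ)⁻¹ ^ n := by
      rw [zpow_neg, zpow_natCast, inv_pow]
    rw [h2] at h1
    have h3 : ‖t - (t.appr n : ℤ_[p])‖ = ‖(y : List ℕ → ℚ_[p]) b - ((t.appr n : ℕ) : ℤ)‖ := by
      rw [PadicInt.norm_def]
      congr 1
    rw [← h3]
    exact h1
  choose k hk using hz
  refine ⟨∑ b ∈ A, k b • e (p := p) b, ?_, ?_⟩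
  · refine AddSubgroup.sum_mem _ ?_
    intro b _
    exact AddSubgroup.zsmul_mem _ (AddSubgroup.subset_closure (Set.mem_range_self b)) _
  · have h1 : y - ∑ b ∈ A, k b • e (p := p) b = (y - ∑ b ∈ A, ((y : List ℕ → ℚ_[p]) b) • e b) +
        ∑ b ∈ A, ((y : List ℕ → ℚ_[p]) b - (k b : ℚ_[p])) • e b := by
      have : ∑ b ∈ A, ((y : List ℕ → ℚ_[p]) b - (k b : ℚ_[p])) • e (p := p) b =
          ∑ b ∈ A, ((y : List ℕ → ℚ_[p]) b) • e b - ∑ b ∈ A, k b • e b := by
        rw [← Finset.sum_sub_distrib]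
        apply Finset.sum_congr rfl
        intro b _
        have h5 := sub_smul ((y : List ℕ → ℚ_[p]) b) (k b : ℚ_[p]) (e (p := p) b)
        rw [h5, Int.cast_smul_eq_zsmul]
      rw [this]; abel
    rw [h1]
    refine ballR_add hA ?_
    intro b
    rw [coe_sum_apply]
    apply IsUltrametricDist.norm_sum_le_of_forall_le_of_nonneg (pinv_pow_pos n).le
    intro a _
    rw [Submodule.coe_smul, Pi.smul_apply, norm_smul]
    refine (mul_le_of_le_one_right (norm_nonneg _) (e_ball a b)).trans (hk a)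

end Pool.Agent.Lib.MP_e12dda_al.Ins
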