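import Pool.Agent.Lib.MP_e12dda_al.Ins.Extend

set_option autoImplicit false

namespace Pool.Agent.Lib.MP_e12dda_al.Ins

open Cardinal Module

variable {p : ℕ} [Fact p.Prime]

theorem mk_padic : #ℚ_[p] ≤ 𝔠 := by
  have h1 : #ℚ_[p] ≤ #(PadicSeq p) :=
    mk_le_of_surjective (f := Padic.mk) (fun x => Quotient.exists_rep x)
  refine h1.trans ?_
  have h2 : #(PadicSeq p) ≤ #(ℕ → ℚ) := mk_subtype_le _
  refine h2.trans ?_
  rw [← power_def, mk_eq_aleph0 ℚ, mk_nat, aleph0_power_aleph0]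

theorem mk_fun_le {α β : Type} (hα : #α ≤ ℵ₀) (hβ : #β ≤ 𝔠) : #(α → β) ≤ 𝔠 := by
  rw [← power_def]
  calc #β ^ #α ≤ 𝔠 ^ #α := power_le_power_right hβ
    _ ≤ 𝔠 ^ ℵ₀ := power_le_power_left (ne_of_gt continuum_pos) hα
    _ = 𝔠 := continuum_power_aleph0

theorem mk_V : #(V p) ≤ 𝔠 :=
  (mk_subtype_le _).trans (mk_fun_le mk_le_aleph0 mk_padic)

theorem mk_adm : #{T : Module.End ℚ_[p] (V p) // Adm T} ≤ 𝔠 := by
  refine le_trans ?_ (mk_fun_le (α := List ℕ) (β := V p) mk_le_aleph0 mk_V)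
  refine mk_le_of_injective (f := fun T b => T.1 (e b)) ?_
  intro T T' h
  exact Subtype.ext (adm_ext _ _ T.2 T'.2 (fun b => congrFun h b))

theorem mk_labels : #(ℕ → Bool) = 𝔠 := by
  rw [← power_def, mk_nat, mk_bool, two_power_aleph0]

theorem exists_irr : ∃ t : ℚ_[p], t ∉ Set.range (algebraMap ℚ ℚ_[p]) := by
  by_contra hcon
  push Not at hcon
  have h1 : #ℚ_[p] ≤ #ℚ := mk_le_of_surjective (f := algebraMap ℚ ℚ_[p]) hcon
  rw [mk_eq_aleph0 ℚ] at h1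
  have h2 := continuum_le_cardinal_of_nontriviallyNormedField ℚ_[p]
  exact absurd (h2.trans h1) (not_le.mpr aleph0_lt_continuum)

/-- a Hamel basis -/
noncomputable def hamel : Basis (Basis.ofVectorSpaceIndex ℚ ℚ_[p]) ℚ ℚ_[p] :=
  Basis.ofVectorSpace ℚ ℚ_[p]

theorem span_e_rat (y : (V p)) (hy : y ∈ Submodule.span ℚ (Set.range e)) (b : List ℕ) :
    (y : List ℕ → ℚ_[p]) b ∈ LinearMap.range (Algebra.linearMap ℚ ℚ_[p]) := by
  induction hy using Submodule.span_induction with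
  | mem x hx =>
    obtain ⟨b', rfl⟩ := hx
    by_cases h : b = b'
    · subst h; rw [e_self]; exact ⟨1, by simp⟩
    · rw [e_ne _ _ h]; exact Submodule.zero_mem _
  | zero => exact Submodule.zero_mem _
  | add x y _ _ hx hy =>
    rw [Submodule.coe_add, Pi.add_apply]
    exact Submodule.add_mem _ hx hy
  | smul a x _ hx =>
    have : ((a • x : (V p)) : List ℕ → ℚ_[p]) b = a • ((x : List ℕ → ℚ_[p]) b) := rfl
    rw [this]
    exact Submodule.smul_mem _ _ hx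

/-- evaluation at a coordinate -/
def evalAt (b : List ℕ) : (V p) →ₗ[ℚ_[p]] ℚ_[p] where
  toFun y := (y : List ℕ → ℚ_[p]) b
  map_add' _ _ := rfl
  map_smul' _ _ := rfl

theorem LD_base : LD (hamel (p := p)) (Submodule.span ℚ (Set.range (e (p := p)))) := by
  intro z hz h
  ext j b
  have h1 := LD_range (hamel (p := p)) (z.mapRange (evalAt b) (map_zero _)) (fun j => by
    simp only [Finsupp.mapRange_apply]
    exact span_e_rat _ (hz j) b) (by rw [← Tk_map, h, map_zero])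
  have := DFunLike.congr_fun h1 j
  simp only [Finsupp.mapRange_apply, Finsupp.coe_zero, Pi.zero_apply] at this
  exact this

/-- the initial state -/
noncomputable def st0 (p : ℕ) [Fact p.Prime] : St ℚ ℚ_[p] (V p) (ℕ → Bool) := ⟨∅, Submodule.span ℚ (Set.range e), ∅⟩

abbrev GoodC (σ : St ℚ ℚ_[p] (V p) (ℕ → Bool)) : Prop := Good hamel lam Adm (Set.range e) σ

theorem good_st0 : GoodC (st0 p) := by
  refine ⟨?_, ?_, ?_, ?_, LD_base, ?_, Submodule.subset_span⟩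
  · intro o ho; exact absurd ho (Set.notMem_empty _)
  · intro o ho; exact absurd ho (Set.notMem_empty _)
  · intro o ho; exact absurd ho (Set.notMem_empty _)
  · intro o ho; exact absurd ho (Set.notMem_empty _)
  · intro o ho; exact absurd ho (Set.notMem_empty _)

theorem st0_le (σ : St ℚ ℚ_[p] (V p) (ℕ → Bool)) (hσ : GoodC σ) : st0 p ≤ σ :=
  ⟨Set.empty_subset _, Submodule.span_le.mpr hσ.base, Set.empty_subset _⟩

theorem sz_st0 : Sz (st0 p) ℵ₀ := by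
  refine ⟨by simp [st0], ?_, by simp [st0]⟩
  have h1 : #(List ℕ →₀ ℚ) ≤ ℵ₀ := mk_finsupp_le' ℵ₀ le_rfl mk_le_aleph0 mk_le_aleph0
  refine le_trans ?_ h1
  have h2 : (((st0 p).H : Submodule ℚ (V p)) : Set (V p)) ⊆ Set.range (Finsupp.linearCombination ℚ (e (p := p))) := by
    intro x hx
    rw [SetLike.mem_coe] at hx
    simp only [st0] at hx
    rw [← Finsupp.range_linearCombination] at hx
    exact hx
  exact (mk_le_mk_of_subset h2).trans mk_range_le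

theorem sz_mono (σ : St ℚ ℚ_[p] (V p) (ℕ → Bool)) (c c' : Cardinal.{0}) (h : c ≤ c') (hs : Sz σ c) :
    Sz σ c' := ⟨hs.1.trans h, hs.2.1.trans h, hs.2.2.trans h⟩

/-- the requirement attached to a pair of vectors and an operator -/
def Task (a b : (V p)) (φ : Module.End ℚ_[p] (V p)) (σ : St ℚ ℚ_[p] (V p) (ℕ → Bool)) : Prop :=
  (a ∈ σ.G ∨ b ∈ σ.G ∨ (a ∈ σ.H ∧ b ∈ σ.H ∧
    (Ball a → (∃ i, ‖(a : List ℕ → ℚ_[p]) i‖ = 1) → Ball b → ∃ o ∈ σ.O, o.2 a = b))) ∧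
  ((∃ v ∈ σ.H, φ v ∈ σ.G) ∨
    (∃ r ∈ Algebra.adjoin ℚ (Prod.snd '' σ.O), ∀ x ∈ Set.range e, φ x = r x))

theorem task_step (a b : (V p)) (φ : Module.End ℚ_[p] (V p)) (c : Cardinal.{0}) (hc : ℵ₀ ≤ c)
    (hc' : c < 𝔠) (σ : St ℚ ℚ_[p] (V p) (ℕ → Bool)) (hσ : GoodC σ) (hsz : Sz σ c) :
    ∃ τ, GoodC τ ∧ σ ≤ τ ∧ Sz τ c ∧ Task a b φ τ := by
  classical
  have hcS : c < #(ℕ → Bool) := by rw [mk_labels]; exact hc'
  obtain ⟨σ1, g1, l1, s1, t1⟩ := stepC hσ c hc hsz a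
  obtain ⟨σ2, g2, l2, s2, t2⟩ := stepC g1 c hc s1 b
  have t1' : a ∈ σ2.G ∨ a ∈ σ2.H := t1.imp (fun h => l2.2.2 h) (fun h => l2.2.1 h)
  have hex : ∃ σ3, GoodC σ3 ∧ σ2 ≤ σ3 ∧ Sz σ3 c ∧ (a ∈ σ3.G ∨ b ∈ σ3.G ∨
      (a ∈ σ3.H ∧ b ∈ σ3.H ∧
      (Ball a → (∃ i, ‖(a : List ℕ → ℚ_[p]) i‖ = 1) → Ball b → ∃ o ∈ σ3.O, o.2 a = b))) := by
    rcases t1' with h | ha
    · exact ⟨σ2, g2, le_rfl, s2, Or.inl h⟩
    rcases t2 with h | hb
    · exact ⟨σ2, g2, le_rfl, s2, Or.inr (Or.inl h)⟩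
    by_cases hcond : Ball a ∧ (∃ i, ‖(a : List ℕ → ℚ_[p]) i‖ = 1) ∧ Ball b
    · obtain ⟨ha1, ⟨i, hi⟩, hb1⟩ := hcond
      have hai : (a : List ℕ → ℚ_[p]) i ≠ 0 := by
        intro h; rw [h] at hi; simp at hi
      let f : (V p) →ₗ[ℚ_[p]] ℚ_[p] := ((a : List ℕ → ℚ_[p]) i)⁻¹ • evalAt i
      have hf : ∀ y : (V p), f y = ((a : List ℕ → ℚ_[p]) i)⁻¹ * (y : List ℕ → ℚ_[p]) i := fun y => rfl
      obtain ⟨σ3, g3, l3, s3, o, ho1, ho2⟩ := stepA g2 lam_indep c hc hcS s2 a b ha hb f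
        (by rw [hf]; exact inv_mul_cancel₀ hai) (by
          intro s y hy
          have h1 : (lam s + f.smulRight (b - lam s a) : Module.End ℚ_[p] (V p)) y =
              lam s y + f y • (b - lam s a) := rfl
          rw [h1]
          refine ballR_add (lam_ball s y hy) ?_
          have h2 := ballR_smul (f y) (ballR_sub hb1 (lam_ball s a ha1))
          intro b'
          refine (h2 b').trans ?_
          rw [mul_one, hf, norm_mul, norm_inv, hi, inv_one, one_mul]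
          exact hy i)
      exact ⟨σ3, g3, l3, s3, Or.inr (Or.inr ⟨l3.2.1 ha, l3.2.1 hb, fun _ _ _ => ⟨o, ho1, ho2⟩⟩)⟩
    · refine ⟨σ2, g2, le_rfl, s2, Or.inr (Or.inr ⟨ha, hb, fun h1 h2 h3 => ?_⟩)⟩
      exact absurd ⟨h1, h2, h3⟩ hcond
  obtain ⟨σ3, g3, l3, s3, t3⟩ := hex
  obtain ⟨σ4, g4, l4, s4, t4⟩ := stepB g3 lam_indep c hc hcS s3 mk_le_aleph0 exists_irr
    (e []) (e_ne_zero []) φ
  refine ⟨σ4, g4, l1.trans (l2.trans (l3.trans l4)), s4, ?_, t4⟩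
  rcases t3 with h | h | ⟨h1, h2, h3⟩
  · exact Or.inl (l4.2.2 h)
  · exact Or.inr (Or.inl (l4.2.2 h))
  · refine Or.inr (Or.inr ⟨l4.2.1 h1, l4.2.1 h2, fun a1 a2 a3 => ?_⟩)
    obtain ⟨o, ho1, ho2⟩ := h3 a1 a2 a3
    exact ⟨o, l4.1 ho1, ho2⟩

theorem exists_family : ∃ (I : Type) (_ : LinearOrder I) (f : I → St ℚ ℚ_[p] (V p) (ℕ → Bool)),
    Nonempty I ∧ Monotone f ∧ (∀ i, GoodC (f i)) ∧
    (∀ (a b : (V p)) (φ : Module.End ℚ_[p] (V p)), Adm φ → ∃ i, Task a b φ (f i)) ∧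
    (∀ i, ∃ c, ℵ₀ ≤ c ∧ c < 𝔠 ∧ Sz (f i) c) := by
  classical
  let I : Type := (Cardinal.continuum.{0}).ord.ToType
  have hI : ∀ i : I, #(Set.Iio i) < 𝔠 := by
    intro i
    have h := mk_Iio_lt (α := (Cardinal.continuum.{0}).ord.ToType) i (by simp)
    simpa using h
  have hmkI : #I = 𝔠 := by simp [I]
  let X : Type := (V p) × (V p) × {T : Module.End ℚ_[p] (V p) // Adm T}
  have hX : #X ≤ #I := by
    rw [hmkI]
    exact mk_prod_le' 𝔠 aleph0_le_continuum mk_V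
      (mk_prod_le' 𝔠 aleph0_le_continuum mk_V mk_adm)
  have : Nonempty X := ⟨(0, 0, ⟨1, adm_one⟩)⟩
  obtain ⟨g, hg⟩ : ∃ g : X → I, Function.Injective g := by
    rw [le_def] at hX
    obtain ⟨g⟩ := hX
    exact ⟨g, g.injective⟩
  let t : I → X := Function.invFun g
  have ht : Function.Surjective t := Function.invFun_surjective hg
  let P : Type := {σ : St ℚ ℚ_[p] (V p) (ℕ → Bool) // GoodC σ}
  obtain ⟨f, hf1, hf2, hf3⟩ := recursion (P := P) (fun p c => Sz p.1 c)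
    (fun p c c' h hs => sz_mono p.1 c c' h hs) hI
    (fun i p => Task (t i).1 (t i).2.1 (t i).2.2.1 p.1)
    (by
      intro C c hc _ hCc hchain hs
      let C' : Set (St ℚ ℚ_[p] (V p) (ℕ → Bool)) := insert (st0 p) (Subtype.val '' C)
      have hg' : ∀ σ ∈ C', GoodC σ := by
        intro σ hσ
        rcases hσ with rfl | ⟨p, _, rfl⟩
        · exact good_st0
        · exact p.2
      have hchain' : IsChain (· ≤ ·) C' := by
        refine IsChain.insert ?_ ?_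
        · rintro _ ⟨p, hp, rfl⟩ _ ⟨q, hq, rfl⟩ hne
          exact hchain hp hq (fun h => hne (by rw [h]))
        · intro b hb _
          obtain ⟨p, _, rfl⟩ := hb
          exact Or.inl (st0_le _ p.2)
      have hne : C'.Nonempty := ⟨st0 p, Or.inl rfl⟩
      refine ⟨⟨unionSt C', unionSt_good C' hchain' hne hg'⟩, ?_, ?_⟩
      · refine unionSt_sz C' hchain' hne c hc ?_ ?_
        · refine mk_insert_le.trans ?_
          refine (add_le_add (mk_image_le.trans hCc) ((one_le_aleph0).trans hc)).trans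
            (add_eq_self hc).le
        · intro σ hσ
          rcases hσ with rfl | ⟨p, hp, rfl⟩
          · exact sz_mono _ _ _ hc sz_st0
          · exact hs p hp
      · intro p hp
        exact unionSt_le C' p.1 (Or.inr ⟨p, hp, rfl⟩))
    (by
      intro i c hc hc' p hp
      obtain ⟨τ, h1, h2, h3, h4⟩ := task_step (t i).1 (t i).2.1 (t i).2.2.1 c hc hc' p.1 p.2 hp
      exact ⟨⟨τ, h1⟩, h2, h3, h4⟩)
  refine ⟨I, inferInstance, fun i => (f i).1, ⟨g (Classical.arbitrary X)⟩,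
    fun a b hab => hf1 hab, fun i => (f i).2, ?_, hf3⟩
  intro a b φ hφ
  obtain ⟨i, hi⟩ := ht (a, b, ⟨φ, hφ⟩)
  refine ⟨i, ?_⟩
  have := hf2 i
  rw [hi] at this
  exact this

end Pool.Agent.Lib.MP_e12dda_al.Ins
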