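import Pool.Agent.Lib.MP_e12dda_al.StepB

set_option autoImplicit false

namespace Pool.Agent.Lib.MP_e12dda_al.Ins

open Cardinal Module

section nozero

variable {F K : Type} [Field F] [Field K] [Algebra F K] {V : Type} [AddCommGroup V] [Module K V]
  [Module F V] [IsScalarTower F K V] {J S : Type}

/-- the algebra generated by the operators of a stage has no zero divisors -/
theorem no_zero_div {κ : Basis J F K} {lam : S → Module.End K V} {Adm : Module.End K V → Prop}
    {E : Set V} {σ : St F K V S} (hσ : Good κ lam Adm E σ) (hlam : IndepOps lam)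
    (c : Cardinal.{0}) (hc : ℵ₀ ≤ c) (hcS : c < #S) (hsz : Sz σ c) (e0 : V) (he0 : e0 ≠ 0)
    (r r' : Module.End K V) (hr : r ∈ Algebra.adjoin F (Prod.snd '' σ.O))
    (hr' : r' ∈ Algebra.adjoin F (Prod.snd '' σ.O)) (hrr : r * r' = 0) :
    r = 0 ∨ r' = 0 := by
  classical
  obtain ⟨D, hDH, hDG, -, -, hD1, hD2, hD3, hDrk⟩ := setup hσ c hc hsz ∅ (by simp) ∅ (by simp)
  obtain ⟨s, hsU, L', hL1, hL2, hdis⟩ := exists_fresh lam hlam (Prod.fst '' σ.O) D c hc
    (mk_image_le.trans hsz.1) hDrk hcS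
  have hs : ∀ o ∈ σ.O, s ≠ o.1 := fun o ho h => hsU ⟨o, ho, h.symm⟩
  have hL2' : ∀ o ∈ σ.O, ∀ y ∈ L', lam o.1 y ∈ L' := fun o ho => hL2 _ ⟨o, ho, rfl⟩
  let op : σ.O → Module.End K V := fun o => (o : S × Module.End K V).2
  have hkey := key_vector hσ hlam D hD1 hD2 hD3 s hs L' hL1 hL2' hdis e0 he0 0 D.zero_mem
  let Φ : MonoidAlgebra K (FreeMonoid σ.O) →ₐ[K] Module.End K V :=
    MonoidAlgebra.lift K (Module.End K V) (FreeMonoid σ.O) (FreeMonoid.lift op)
  have hΦ : ∀ z : MonoidAlgebra K (FreeMonoid σ.O), Φ z = Rop op (toL z) := by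
    intro z
    have h1 : Φ z = z.coeff.sum (fun a b => b • (FreeMonoid.lift op a)) :=
      MonoidAlgebra.lift_apply _ _
    rw [h1]
    simp only [FreeMonoid.lift_apply]
    rfl
  have hinj : ∀ z, Φ z = 0 → z = 0 := by
    intro z hz
    rw [hΦ] at hz
    have : toL z = 0 := by
      apply hkey
      rw [Ev_toSpan, hz, LinearMap.zero_apply]
      exact D.zero_mem
    have h2 : z.coeff = 0 := this
    exact MonoidAlgebra.coeff_injective (by rw [h2]; rfl)
  have hrange : ∀ x ∈ Algebra.adjoin F (Prod.snd '' σ.O), ∃ z, Φ z = x := by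
    intro x hx
    induction hx using Algebra.adjoin_induction with
    | mem x hx =>
      obtain ⟨o, ho, rfl⟩ := hx
      refine ⟨MonoidAlgebra.single (FreeMonoid.of ⟨o, ho⟩) 1, ?_⟩
      simp [Φ, op]
    | algebraMap q =>
      refine ⟨MonoidAlgebra.single 1 (algebraMap F K q), ?_⟩
      simp only [Φ]
      rw [MonoidAlgebra.lift_single, map_one, algebraMap_smul, Algebra.algebraMap_eq_smul_one]
    | add x y _ _ hx hy =>
      obtain ⟨z, rfl⟩ := hx
      obtain ⟨w, rfl⟩ := hy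
      exact ⟨z + w, map_add _ _ _⟩
    | mul x y _ _ hx hy =>
      obtain ⟨z, rfl⟩ := hx
      obtain ⟨w, rfl⟩ := hy
      exact ⟨z * w, map_mul _ _ _⟩
  obtain ⟨z, rfl⟩ := hrange r hr
  obtain ⟨z', rfl⟩ := hrange r' hr'
  have hzz : z * z' = 0 := by
    apply hinj
    rw [map_mul, hrr]
  rcases mul_eq_zero.mp hzz with h | h
  · left; rw [h, map_zero]
  · right; rw [h, map_zero]

end nozero

end Pool.Agent.Lib.MP_e12dda_al.Ins
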