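import Pool.Agent.Lib.MP_e12dda_al.Ins.MainAux
import Pool.Agent.Lib.MP_e12dda_al.Ins.NoZero
import Pool.Agent.Lib.MP_e12dda_al.Ins.Defs

set_option autoImplicit false

namespace Pool.Agent.Lib.MP_e12dda_al.Ins

open Cardinal Module Filter Topology

theorem rat_of_norm_one {p : ℕ} [hp : Fact p.Prime] (q : ℚ) (h : ‖(q : ℚ_[p])‖ = 1) :
    ¬ (p : ℤ) ∣ q.num ∧ ¬ (p : ℤ) ∣ (q.den : ℤ) := by
  have hden : (q.den : ℚ_[p]) ≠ 0 := by exact_mod_cast q.den_ne_zero
  have h1 : (q : ℚ_[p]) * (q.den : ℚ_[p]) = (q.num : ℚ_[p]) := by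
    have := Rat.mul_den_eq_num q
    exact_mod_cast this
  have h2 : ‖((q.den : ℤ) : ℚ_[p])‖ = ‖((q.num : ℤ) : ℚ_[p])‖ := by
    have h3 := congrArg norm h1
    rw [norm_mul, h, one_mul] at h3
    push_cast
    exact h3
  have hnot : ¬ ((p : ℤ) ∣ q.num ∧ (p : ℤ) ∣ (q.den : ℤ)) := by
    rintro ⟨ha, hb⟩
    have h4 : p ∣ q.num.natAbs := Int.natCast_dvd.mp ha
    have h5 : p ∣ q.den := by exact_mod_cast hb
    have h6 := Nat.dvd_gcd h4 h5
    rw [Nat.Coprime.gcd_eq_one q.reduced] at h6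
    exact hp.out.one_lt.ne' (Nat.dvd_one.mp h6)
  have hiff : ∀ m : ℤ, (p : ℤ) ∣ m ↔ ‖(m : ℚ_[p])‖ < 1 := fun m =>
    (Padic.norm_intCast_lt_one_iff (p := p) (k := m)).symm
  constructor
  · intro ha
    refine hnot ⟨ha, ?_⟩
    rw [hiff, h2, ← hiff]
    exact ha
  · intro hb
    refine hnot ⟨?_, hb⟩
    rw [hiff, ← h2, ← hiff]
    exact hb

theorem main_theorem (p : ℕ) (hp : p.Prime) :
    ∃ (G : Type) (_ : AddCommGroup G), IsTorsionFreeGroup G ∧ IsHomogeneousGroup G ∧ IsFullyTransitiveGroup G ∧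
      ¬ IsTransitiveGroup G ∧
      (∀ g : G, g ≠ 0 → height p g ≠ ⊤ ∧ ∀ q : ℕ, q.Prime → q ≠ p → height q g = ⊤) ∧
      (∀ α : G ≃+ G, ∃ m n : ℤ, ¬ (p : ℤ) ∣ m ∧ ¬ (p : ℤ) ∣ n ∧ ∀ g : G, n • α g = m • g) ∧
      (∀ φ ψ : G →+ G, (∀ g, φ (ψ g) = 0) → φ = 0 ∨ ψ = 0) := by
  classical
  have hfact : Fact p.Prime := ⟨hp⟩
  obtain ⟨I, hlin, f, hIne, hmono, hgood, htask, hsize⟩ := exists_family (p := p)
  obtain ⟨i0⟩ := hIne
  -- the union of the subspaces
  let H : Submodule ℚ (V p) :=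
    { carrier := {x | ∃ i, x ∈ (f i).H}
      zero_mem' := ⟨i0, Submodule.zero_mem _⟩
      add_mem' := by
        rintro x y ⟨i, hi⟩ ⟨j, hj⟩
        exact ⟨max i j, Submodule.add_mem _ ((hmono (le_max_left i j)).2.1 hi)
          ((hmono (le_max_right i j)).2.1 hj)⟩
      smul_mem' := by
        rintro q x ⟨i, hi⟩
        exact ⟨i, Submodule.smul_mem _ _ hi⟩ }
  have hH : ∀ x, x ∈ H ↔ ∃ i, x ∈ (f i).H := fun x => Iff.rfl
  have hHG : ∀ x ∈ H, ∀ i, x ∉ (f i).G := by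
    rintro x ⟨j, hj⟩ i hi
    exact (hgood (max i j)).disj x ((hmono (le_max_left i j)).2.2 hi)
      ((hmono (le_max_right i j)).2.1 hj)
  have hHO : ∀ x ∈ H, ∀ i, ∀ o ∈ (f i).O, o.2 x ∈ H := by
    rintro x ⟨j, hj⟩ i o ho
    exact ⟨max i j, (hgood (max i j)).cl o ((hmono (le_max_left i j)).1 ho) x
      ((hmono (le_max_right i j)).2.1 hj)⟩
  have heH : ∀ b, e b ∈ H := fun b => ⟨i0, (hgood i0).base ⟨b, rfl⟩⟩
  -- rational scalars acting through the `p`-adic field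
  have hsm : ∀ (q : ℚ) (x : V p), ((q : ℚ) : ℚ_[p]) • x = q • x := by
    intro q x
    have := algebraMap_smul ℚ_[p] q x
    rw [← this]
    congr 1
  have hHnat : ∀ (n : ℕ) (x : V p), x ∈ H → ((n : ℚ_[p])⁻¹) • x ∈ H := by
    intro n x hx
    have h1 := hsm ((n : ℚ)⁻¹) x
    push_cast at h1
    rw [h1]
    exact H.smul_mem _ hx
  have hHp : ∀ (n : ℕ) (x : V p), x ∈ H → ((p : ℚ_[p]) ^ n) • x ∈ H := by
    intro n x hx
    have h1 := hsm ((p : ℚ) ^ n) x
    push_cast at h1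
    rw [h1]
    exact H.smul_mem _ hx
  have hHp' : ∀ (n : ℕ) (x : V p), x ∈ H → (((p : ℚ_[p]) ^ n)⁻¹) • x ∈ H := by
    intro n x hx
    have h1 := hHnat (p ^ n) x hx
    push_cast at h1
    exact h1
  -- the group
  let G : AddSubgroup (V p) :=
    { carrier := {x | x ∈ H ∧ Ball x}
      zero_mem' := ⟨H.zero_mem, ballR_zero zero_le_one⟩
      add_mem' := fun {x y} hx hy => ⟨H.add_mem hx.1 hy.1, ballR_add hx.2 hy.2⟩
      neg_mem' := fun {x} hx => ⟨H.neg_mem hx.1, ballR_neg hx.2⟩ }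
  have hG : ∀ x, x ∈ G ↔ x ∈ H ∧ Ball x := fun x => Iff.rfl
  have hnsmul : ∀ (n : ℕ) (x : V p), n • x = (n : ℚ_[p]) • x := fun n x =>
    (Nat.cast_smul_eq_nsmul ℚ_[p] n x).symm
  -- divisibility by powers of `p`
  have hdivp : ∀ (k : ℕ) (x : V p), x ∈ G → BallR ((p : ℝ)⁻¹ ^ k) x →
      ((p : ℚ_[p]) ^ k)⁻¹ • x ∈ G := by
    intro k x hx hk
    refine (hG _).mpr ⟨hHp' k x hx.1, ?_⟩
    have h1 := ballR_smul (((p : ℚ_[p]) ^ k)⁻¹) hk
    rw [norm_inv, norm_p_pow, inv_mul_cancel₀ (pinv_pow_ne k)] at h1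
    exact h1
  have hdivq : ∀ (q : ℕ), q.Prime → q ≠ p → ∀ (k : ℕ) (x : V p), x ∈ G →
      ((q : ℚ_[p]) ^ k)⁻¹ • x ∈ G := by
    intro q hq hqp k x hx
    refine (hG _).mpr ⟨?_, ?_⟩
    · have h1 := hHnat (q ^ k) x hx.1
      push_cast at h1
      exact h1
    · have h1 := ballR_smul (((q : ℚ_[p]) ^ k)⁻¹) ((ball_iff _).mp hx.2)
      rw [norm_inv, norm_pow, norm_natCast_eq_one q hq hqp, one_pow, inv_one, one_mul] at h1
      exact h1
  have hsmall : ∀ (k : ℕ) (x y : G), p ^ k • y = x → BallR ((p : ℝ)⁻¹ ^ k) (x : V p) := by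
    intro k x y hxy
    have h1 : (x : V p) = ((p : ℚ_[p]) ^ k) • (y : V p) := by
      rw [← hxy, AddSubgroup.coe_nsmul, hnsmul]
      push_cast
      rfl
    have h2 := ballR_smul ((p : ℚ_[p]) ^ k) ((ball_iff _).mp y.2.2)
    rw [norm_p_pow, mul_one] at h2
    rw [h1]
    exact h2
  -- heights
  have hq : ∀ (g : G) (q : ℕ), q.Prime → q ≠ p → height q g = ⊤ := by
    intro g q hq hqp
    refine height_eq_top q g fun k => ⟨⟨_, hdivq q hq hqp k _ g.2⟩, ?_⟩
    apply Subtype.ext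
    rw [AddSubgroup.coe_nsmul, hnsmul]
    push_cast
    rw [smul_smul, mul_inv_cancel₀, one_smul]
    exact pow_ne_zero _ (by exact_mod_cast hq.ne_zero)
  have hpk : ∀ (g : G) (k N : ℕ) (i : List ℕ), ‖((g : V p) : List ℕ → ℚ_[p]) i‖ = (p : ℝ)⁻¹ ^ N →
      (∃ y : G, p ^ k • y = g) → k ≤ N := by
    rintro g k N i hi ⟨y, hy⟩
    have h1 := hsmall k g y hy i
    rw [hi] at h1
    by_contra hcon
    have : (p : ℝ)⁻¹ ^ k < (p : ℝ)⁻¹ ^ N :=
      pow_lt_pow_right_of_lt_one₀ pinv_pos pinv_lt_one (not_le.mp hcon)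
    linarith
  have hfin : ∀ g : G, g ≠ 0 → height p g ≠ ⊤ := by
    intro g hg
    have hg' : (g : V p) ≠ 0 := fun h => hg (Subtype.ext h)
    obtain ⟨N, _, i, hi⟩ := exists_exact (g : V p) hg' g.2.2
    exact height_ne_top p g N fun k hk => hpk g k N i hi hk
  have htf : ∀ (n : ℕ) (g : G), 1 ≤ n → g ≠ 0 → n • g ≠ 0 := by
    intro n x hn hx0 hx
    have h1 : (n : ℚ_[p]) • (x : V p) = 0 := by
      rw [← hnsmul, ← AddSubgroup.coe_nsmul, hx]; rfl
    rcases smul_eq_zero.mp h1 with h | h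
    · exact absurd (by exact_mod_cast h) (by omega : n ≠ 0)
    · exact hx0 (Subtype.ext h)
  -- extension of group endomorphisms to operators
  have hext : ∀ Ψ : G →+ G, ∃ T : Module.End ℚ_[p] (V p), Adm T ∧ ∀ g : G, T (g : V p) = Ψ g := by
    intro Ψ
    obtain ⟨T, hT1, hT2⟩ := exists_ext (fun b => ((Ψ ⟨e b, heH b, e_ball b⟩ : G) : V p))
      (fun b => (Ψ ⟨e b, heH b, e_ball b⟩).2.2)
    refine ⟨T, hT1, ?_⟩
    intro g
    rw [← sub_eq_zero]
    apply eq_zero_of_small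
    intro n
    obtain ⟨z, hz, hzn⟩ := int_approx (g : V p) g.2.2 n
    have hzG : ∀ z ∈ AddSubgroup.closure (Set.range (e (p := p))), ∃ z' : G, (z' : V p) = z ∧
        T (z' : V p) = Ψ z' := by
      intro z hz
      induction hz using AddSubgroup.closure_induction with
      | mem x hx =>
        obtain ⟨b, rfl⟩ := hx
        exact ⟨⟨e b, heH b, e_ball b⟩, rfl, hT2 b⟩
      | zero => exact ⟨0, rfl, by simp⟩
      | add x y _ _ hx hy =>
        obtain ⟨x', hx1, hx2⟩ := hx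
        obtain ⟨y', hy1, hy2⟩ := hy
        refine ⟨x' + y', by rw [AddSubgroup.coe_add, hx1, hy1], ?_⟩
        rw [AddSubgroup.coe_add, map_add, hx2, hy2, map_add, AddSubgroup.coe_add]
      | neg x _ hx =>
        obtain ⟨x', hx1, hx2⟩ := hx
        refine ⟨-x', by rw [AddSubgroup.coe_neg, hx1], ?_⟩
        rw [AddSubgroup.coe_neg, map_neg, hx2, map_neg, AddSubgroup.coe_neg]
    obtain ⟨z', hz'1, hz'2⟩ := hzG z hz
    have hdG : (g : V p) - (z' : V p) ∈ G := (g - z').2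
    have hd2 : BallR ((p : ℝ)⁻¹ ^ n) ((g : V p) - (z' : V p)) := by rw [hz'1]; exact hzn
    let d : G := ⟨_, hdivp n _ hdG hd2⟩
    have hd : p ^ n • d = (g - z' : G) := by
      apply Subtype.ext
      rw [AddSubgroup.coe_nsmul, hnsmul]
      push_cast
      simp only [d]
      rw [smul_smul, mul_inv_cancel₀ (p_pow_ne n), one_smul]
    have hg : g = z' + p ^ n • d := by rw [hd]; abel
    have h1 : T (g : V p) - ((Ψ g : G) : V p) =
        ((p : ℚ_[p]) ^ n) • (T (d : V p) - ((Ψ d : G) : V p)) := by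
      have h2 : T (g : V p) = T (z' : V p) + ((p : ℚ_[p]) ^ n) • T (d : V p) := by
        rw [hg, AddSubgroup.coe_add, map_add, AddSubgroup.coe_nsmul, hnsmul, map_smul]
        push_cast
        rfl
      have h3 : (Ψ g : V p) = (Ψ z' : V p) + ((p : ℚ_[p]) ^ n) • (Ψ d : V p) := by
        rw [hg, map_add, AddSubgroup.coe_add, map_nsmul, AddSubgroup.coe_nsmul, hnsmul]
        push_cast
        rfl
      rw [h2, h3, hz'2, smul_sub]
      abel
    rw [h1]
    have h4 := ballR_smul ((p : ℚ_[p]) ^ n)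
      (ballR_sub ((ball_iff _).mp (hT1 _ d.2.2)) ((ball_iff _).mp (Ψ d).2.2))
    rw [norm_p_pow, mul_one] at h4
    exact h4
  -- each such operator is a combination of words
  have hword : ∀ T : Module.End ℚ_[p] (V p), Adm T → (∀ g : G, T (g : V p) ∈ G) →
      ∃ i, T ∈ Algebra.adjoin ℚ (Prod.snd '' (f i).O) := by
    intro T hT hTG
    obtain ⟨i, -, hi⟩ := htask 0 0 T hT
    refine ⟨i, ?_⟩
    rcases hi with ⟨v, hv, hTv⟩ | ⟨r, hr, hre⟩
    · exfalso
      obtain ⟨C, hC1, hC⟩ := V_bounded v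
      obtain ⟨N, hN⟩ := exists_pow_lt_of_lt_one (inv_pos.mpr (lt_of_lt_of_le one_pos hC1))
        (pinv_lt_one (p := p))
      have hvG : ((p : ℚ_[p]) ^ N) • v ∈ G := by
        refine (hG _).mpr ⟨hHp N v ⟨i, hv⟩, ?_⟩
        have h1 := ballR_smul ((p : ℚ_[p]) ^ N) (x := v) (ε := C) hC
        intro b
        refine (h1 b).trans ?_
        rw [norm_p_pow]
        have := mul_lt_mul_of_pos_right hN (lt_of_lt_of_le one_pos hC1)
        rw [inv_mul_cancel₀ (ne_of_gt (lt_of_lt_of_le one_pos hC1))] at this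
        exact this.le
      have h2 := (hTG ⟨_, hvG⟩).1
      have h3 := hHp' N _ h2
      rw [map_smul, smul_smul, inv_mul_cancel₀ (p_pow_ne N), one_smul] at h3
      exact hHG _ h3 i hTv
    · have h1 : Bdd r := bdd_adjoin _ (by
        rintro _ ⟨o, ho, rfl⟩
        exact (hgood i).adm o ho) r hr
      have h2 : T = r := bdd_ext T r (bdd_of_adm hT) h1 (fun b => hre _ ⟨b, rfl⟩)
      rw [h2]; exact hr
  -- operators agreeing on `G` are equal
  have huniq : ∀ T T' : Module.End ℚ_[p] (V p), Adm T → Adm T' →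
      (∀ g : G, T (g : V p) = T' (g : V p)) → T = T' := by
    intro T T' hT hT' h
    exact adm_ext _ _ hT hT' fun b => h ⟨e b, heH b, e_ball b⟩
  -- automorphisms are scalar
  have haut : ∀ α : G ≃+ G, ∃ m n : ℤ, ¬ (p : ℤ) ∣ m ∧ ¬ (p : ℤ) ∣ n ∧
      ∀ g : G, n • α g = m • g := by
    intro Φ
    obtain ⟨T, hT1, hT2⟩ := hext Φ.toAddMonoidHom
    obtain ⟨T', hT'1, hT'2⟩ := hext Φ.symm.toAddMonoidHom
    obtain ⟨i, hi⟩ := hword T hT1 (fun g => by rw [hT2]; exact (Φ g).2)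
    obtain ⟨j, hj⟩ := hword T' hT'1 (fun g => by rw [hT'2]; exact (Φ.symm g).2)
    have hi' : T ∈ Algebra.adjoin ℚ (Prod.snd '' (f (max i j)).O) :=
      Algebra.adjoin_mono (Set.image_mono (hmono (le_max_left i j)).1) hi
    have hj' : T' ∈ Algebra.adjoin ℚ (Prod.snd '' (f (max i j)).O) :=
      Algebra.adjoin_mono (Set.image_mono (hmono (le_max_right i j)).1) hj
    have hTT : T * T' = 1 := by
      apply huniq _ _ (adm_mul hT1 hT'1) adm_one
      intro g
      have h1 : T' (g : V p) = ((Φ.symm g : G) : V p) := hT'2 g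
      have h2 : T ((Φ.symm g : G) : V p) = ((Φ (Φ.symm g) : G) : V p) := hT2 _
      rw [Module.End.mul_apply, h1, h2, AddEquiv.apply_symm_apply]
      rfl
    obtain ⟨c, hc1, hc2, hc3⟩ := hsize (max i j)
    obtain ⟨k, hk⟩ := unit_scalar (hgood (max i j)) lam_indep c hc1
      (by rw [mk_labels]; exact hc2) hc3 (e []) (e_ne_zero []) T T' hi' hj' hTT
    -- `k` is rational
    have hTe : T (e []) ∈ H := by
      have h2 : T ((⟨e [], heH [], e_ball []⟩ : G) : V p) =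
        ((Φ ⟨e [], heH [], e_ball []⟩ : G) : V p) := hT2 _
      have h3 : T (e []) = ((Φ ⟨e [], heH [], e_ball []⟩ : G) : V p) := h2
      rw [h3]
      exact (Φ ⟨e [], heH [], e_ball []⟩).2.1
    have hkrat : ∃ q : ℚ, (q : ℚ_[p]) = k := by
      obtain ⟨j1, hj1⟩ := (hH _).mp (heH [])
      obtain ⟨j2, hj2⟩ := (hH _).mp hTe
      by_contra hcon
      have hne : k ∉ Set.range (algebraMap ℚ ℚ_[p]) := by
        rintro ⟨q, hq⟩
        exact hcon ⟨q, by rw [← hq]; simp⟩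
      have h5 := LD_irr hamel _ (hgood (max j1 j2)).ld (e [])
        ((hmono (le_max_left j1 j2)).2.1 hj1) k hne (by
          rw [← hk]; exact (hmono (le_max_right j1 j2)).2.1 hj2)
      exact e_ne_zero [] h5
    obtain ⟨q, hqk⟩ := hkrat
    -- `k` is a unit
    have hn1 : ‖k‖ ≤ 1 := by
      have h2 := hT1 (e []) (e_ball []) []
      rw [hk, Submodule.coe_smul, Pi.smul_apply, norm_smul, e_self, norm_one, mul_one] at h2
      exact h2
    have hn2 : 1 ≤ ‖k‖ := by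
      have h2 := hT'1 (e []) (e_ball []) []
      have h3 : k • T' (e []) = e [] := by
        rw [← hk, ← Module.End.mul_apply, hTT]; rfl
      have h4 := congrArg (fun y : V p => ‖(y : List ℕ → ℚ_[p]) []‖) h3
      simp only [Submodule.coe_smul, Pi.smul_apply] at h4
      rw [norm_smul, e_self, norm_one] at h4
      have h5 : ‖k‖ * ‖((T' (e []) : V p) : List ℕ → ℚ_[p]) []‖ ≤ ‖k‖ * 1 :=
        mul_le_mul_of_nonneg_left h2 (norm_nonneg _)
      rw [mul_one, h4] at h5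
      exact h5
    have hk1 : ‖(q : ℚ_[p])‖ = 1 := by rw [hqk]; exact le_antisymm hn1 hn2
    obtain ⟨ha, hb⟩ := rat_of_norm_one q hk1
    refine ⟨q.num, q.den, ha, hb, ?_⟩
    intro g
    apply Subtype.ext
    have h2 : T (g : V p) = ((Φ g : G) : V p) := hT2 g
    rw [AddSubgroup.coe_zsmul, AddSubgroup.coe_zsmul, ← h2, hk, ← hqk, hsm]
    rw [← Int.cast_smul_eq_zsmul ℚ, ← Int.cast_smul_eq_zsmul ℚ, smul_smul]
    congr 1
    push_cast
    rw [mul_comm]
    exact Rat.mul_den_eq_num q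
  -- no zero divisors
  have hnz : ∀ φ ψ : G →+ G, (∀ g, φ (ψ g) = 0) → φ = 0 ∨ ψ = 0 := by
    intro φ ψ h
    obtain ⟨T, hT1, hT2⟩ := hext φ
    obtain ⟨T', hT'1, hT'2⟩ := hext ψ
    obtain ⟨i, hi⟩ := hword T hT1 (fun g => by rw [hT2]; exact (φ g).2)
    obtain ⟨j, hj⟩ := hword T' hT'1 (fun g => by rw [hT'2]; exact (ψ g).2)
    have hi' : T ∈ Algebra.adjoin ℚ (Prod.snd '' (f (max i j)).O) :=
      Algebra.adjoin_mono (Set.image_mono (hmono (le_max_left i j)).1) hi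
    have hj' : T' ∈ Algebra.adjoin ℚ (Prod.snd '' (f (max i j)).O) :=
      Algebra.adjoin_mono (Set.image_mono (hmono (le_max_right i j)).1) hj
    have hadm0 : Adm (0 : Module.End ℚ_[p] (V p)) := by
      intro y _ b
      simp
    have hTT : T * T' = 0 := by
      apply huniq _ _ (adm_mul hT1 hT'1) hadm0
      intro g
      rw [Module.End.mul_apply, hT'2, hT2, h]
      rfl
    obtain ⟨c, hc1, hc2, hc3⟩ := hsize (max i j)
    rcases no_zero_div (hgood (max i j)) lam_indep c hc1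
      (by rw [mk_labels]; exact hc2) hc3 (e []) (e_ne_zero []) T T' hi' hj' hTT with h0 | h0
    · left
      ext g
      have := hT2 g
      rw [h0, LinearMap.zero_apply] at this
      rw [← this]
      rfl
    · right
      ext g
      have := hT'2 g
      rw [h0, LinearMap.zero_apply] at this
      rw [← this]
      rfl
  refine ⟨G, inferInstance, htf, ?_, ?_, ?_, fun g hg => ⟨hfin g hg, hq g⟩, haut, hnz⟩
  · -- homogeneous
    intro g h hg hh
    have hsub : {q : ℕ | q.Prime ∧ height q g ≠ height q h} ⊆ {p} := by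
      rintro q ⟨hqp, hne⟩
      by_contra hcon
      exact hne ((hq g q hqp hcon).trans (hq h q hqp hcon).symm)
    refine ⟨(Set.finite_singleton p).subset hsub, ?_⟩
    intro q hqp hne
    have : q = p := hsub ⟨hqp, hne⟩
    subst this
    exact ⟨hfin g hg, hfin h hh⟩
  · -- fully transitive
    intro a b hab
    by_cases ha : a = 0
    · have hb : b = 0 := by
        by_contra hb
        apply hfin b hb
        have h1 := hab p hp
        rw [ha] at h1
        have h2 : height p (0 : G) = ⊤ := height_eq_top p 0 fun k => ⟨0, by simp⟩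
        rw [h2] at h1
        exact top_le_iff.mp h1
      exact ⟨0, by rw [hb]; rfl⟩
    have ha' : (a : V p) ≠ 0 := fun h => ha (Subtype.ext h)
    obtain ⟨n, hn, i, hi⟩ := exists_exact (a : V p) ha' a.2.2
    let a' : G := ⟨((p : ℚ_[p]) ^ n)⁻¹ • (a : V p), hdivp n _ a.2 hn⟩
    have haa : p ^ n • a' = a := by
      apply Subtype.ext
      rw [AddSubgroup.coe_nsmul, hnsmul]
      push_cast
      simp only [a']
      rw [smul_smul, mul_inv_cancel₀ (p_pow_ne n), one_smul]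
    obtain ⟨b', hb'⟩ := (le_height_iff p b n).mp
      (((le_height_iff p a n).mpr ⟨a', haa⟩).trans (hab p hp))
    have ha'n : ‖((a' : V p) : List ℕ → ℚ_[p]) i‖ = 1 := by
      simp only [a']
      rw [Submodule.coe_smul, Pi.smul_apply, norm_smul, hi, norm_inv, norm_p_pow,
        inv_mul_cancel₀ (pinv_pow_ne n)]
    obtain ⟨j, hj, -⟩ := htask (a' : V p) (b' : V p) 1 adm_one
    rcases hj with h | h | ⟨_, _, h⟩
    · exact absurd h (hHG _ a'.2.1 j)
    · exact absurd h (hHG _ b'.2.1 j)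
    · obtain ⟨o, ho, hoab⟩ := h a'.2.2 ⟨i, ha'n⟩ b'.2.2
      let g : G →+ G :=
        { toFun := fun x => ⟨o.2 (x : V p), hHO _ x.2.1 j o ho, (hgood j).adm o ho _ x.2.2⟩
          map_zero' := Subtype.ext (map_zero o.2)
          map_add' := fun x y => Subtype.ext (map_add o.2 _ _) }
      refine ⟨g, ?_⟩
      have hg : g a' = b' := Subtype.ext hoab
      rw [← haa, map_nsmul, hg, hb']
  · -- not transitive
    intro htrans
    let x0 : G := ⟨e [], heH [], e_ball []⟩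
    let x1 : G := ⟨e [0], heH [0], e_ball [0]⟩
    have hzero : ∀ (b : List ℕ) (x : G), (x : V p) = e b → height p x = 0 := by
      intro b x hx
      have h1 : height p x ≤ ((0 : ℕ) : ℕ∞) := by
        refine iSup_le fun n => ?_
        have h2 := hpk x n 0 b (by rw [hx, e_self, norm_one, pow_zero]) n.2
        exact_mod_cast h2
      exact le_antisymm (by exact_mod_cast h1) bot_le
    obtain ⟨Φ, hΦ⟩ := htrans x0 x1 (fun q hqp => by
      by_cases h : q = p
      · subst h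
        rw [hzero [] x0 rfl, hzero [0] x1 rfl]
      · rw [hq x0 q hqp h, hq x1 q hqp h])
    obtain ⟨m, n, hm, -, hmn⟩ := haut Φ
    have h1 := hmn x0
    rw [hΦ] at h1
    have h2 := congrArg (fun y : G => ((y : V p) : List ℕ → ℚ_[p]) []) h1
    simp only [AddSubgroup.coe_zsmul, Submodule.coe_smul_of_tower, Pi.smul_apply] at h2
    have h3 : ((x1 : V p) : List ℕ → ℚ_[p]) [] = 0 := e_ne [0] [] (by simp)
    have h4 : ((x0 : V p) : List ℕ → ℚ_[p]) [] = 1 := e_self []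
    rw [h3, h4, smul_zero, zsmul_one] at h2
    have h5 : m = 0 := by exact_mod_cast h2.symm
    exact hm (by rw [h5]; exact dvd_zero _)

end Pool.Agent.Lib.MP_e12dda_al.Ins
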