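import Pool.Agent.Lib.MP_e12dda_al.Ins.Family

set_option autoImplicit false

namespace Pool.Agent.Lib.MP_e12dda_al.Ins

open Cardinal Module Filter Topology

variable {p : ℕ} [Fact p.Prime]

theorem norm_natCast_eq_one (q : ℕ) (hq : q.Prime) (h2 : q ≠ p) : ‖(q : ℚ_[p])‖ = 1 := by
  rw [Padic.norm_natCast_eq_one_iff]
  exact ((Nat.coprime_primes Fact.out hq).mpr (Ne.symm h2))

/-- bounded operators -/
def Bdd (T : Module.End ℚ_[p] (V p)) : Prop := ∃ N : ℕ, Adm (((p : ℚ_[p]) ^ N) • T)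

theorem p_pow_le (n : ℕ) : ‖(p : ℚ_[p]) ^ n‖ ≤ 1 := by
  rw [norm_p_pow]
  exact pow_le_one₀ pinv_pos.le pinv_lt_one.le

theorem p_pow_ne (n : ℕ) : (p : ℚ_[p]) ^ n ≠ 0 := pow_ne_zero _ p_ne

theorem bdd_of_adm {T : Module.End ℚ_[p] (V p)} (h : Adm T) : Bdd T := ⟨0, by simpa using h⟩

theorem bdd_mono {T : Module.End ℚ_[p] (V p)} {N M : ℕ} (hNM : N ≤ M)
    (h : Adm (((p : ℚ_[p]) ^ N) • T)) : Adm (((p : ℚ_[p]) ^ M) • T) := by
  have : ((p : ℚ_[p]) ^ M) • T = ((p : ℚ_[p]) ^ (M - N)) • (((p : ℚ_[p]) ^ N) • T) := by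
    rw [smul_smul, ← pow_add, Nat.sub_add_cancel hNM]
  rw [this]
  exact adm_smul _ (p_pow_le _) h

theorem bdd_ext (T T' : Module.End ℚ_[p] (V p)) (h : Bdd T) (h' : Bdd T')
    (hE : ∀ b, T (e b) = T' (e b)) : T = T' := by
  obtain ⟨N, hN⟩ := h
  obtain ⟨N', hN'⟩ := h'
  have h1 := bdd_mono (le_max_left N N') hN
  have h2 := bdd_mono (le_max_right N N') hN'
  have h3 := adm_ext _ _ h1 h2 (fun b => by
    rw [LinearMap.smul_apply, LinearMap.smul_apply, hE])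
  exact smul_right_injective _ (p_pow_ne _) h3

theorem bdd_scalar (q : ℚ_[p]) : Bdd (algebraMap ℚ_[p] (Module.End ℚ_[p] (V p)) q) := by
  obtain ⟨N, hN⟩ : ∃ N : ℕ, ‖(p : ℚ_[p]) ^ N * q‖ ≤ 1 := by
    by_cases hq : ‖q‖ = 0
    · exact ⟨0, by rw [norm_mul, hq, mul_zero]; exact zero_le_one⟩
    · have hq' : 0 < ‖q‖ := lt_of_le_of_ne (norm_nonneg _) (Ne.symm hq)
      obtain ⟨N, hN⟩ := exists_pow_lt_of_lt_one (inv_pos.mpr hq')
        (pinv_lt_one (p := p))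
      refine ⟨N, ?_⟩
      rw [norm_mul, norm_p_pow]
      have := mul_lt_mul_of_pos_right hN hq'
      rw [inv_mul_cancel₀ hq] at this
      exact this.le
  refine ⟨N, ?_⟩
  rw [Algebra.algebraMap_eq_smul_one, smul_smul]
  exact adm_smul _ hN adm_one

theorem bdd_adjoin (s : Set (Module.End ℚ_[p] (V p))) (hs : ∀ T ∈ s, Adm T)
    (r : Module.End ℚ_[p] (V p)) (hr : r ∈ Algebra.adjoin ℚ s) : Bdd r := by
  induction hr using Algebra.adjoin_induction with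
  | mem x hx => exact bdd_of_adm (hs x hx)
  | algebraMap q =>
    have := bdd_scalar (algebraMap ℚ ℚ_[p] q)
    rwa [← IsScalarTower.algebraMap_apply] at this
  | add x y _ _ hx hy =>
    obtain ⟨N, hN⟩ := hx
    obtain ⟨M, hM⟩ := hy
    refine ⟨max N M, ?_⟩
    rw [smul_add]
    exact adm_add (bdd_mono (le_max_left _ _) hN) (bdd_mono (le_max_right _ _) hM)
  | mul x y _ _ hx hy =>
    obtain ⟨N, hN⟩ := hx
    obtain ⟨M, hM⟩ := hy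
    refine ⟨N + M, ?_⟩
    have : ((p : ℚ_[p]) ^ (N + M)) • (x * y) =
        (((p : ℚ_[p]) ^ N) • x) * (((p : ℚ_[p]) ^ M) • y) := by
      rw [smul_mul_smul_comm, ← pow_add]
    rw [this]
    exact adm_mul hN hM

theorem exists_max_coord (a : (V p)) (ha : a ≠ 0) :
    ∃ i, (a : List ℕ → ℚ_[p]) i ≠ 0 ∧
      ∀ b, ‖(a : List ℕ → ℚ_[p]) b‖ ≤ ‖(a : List ℕ → ℚ_[p]) i‖ := by
  obtain ⟨i0, hi0⟩ : ∃ i, (a : List ℕ → ℚ_[p]) i ≠ 0 := by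
    by_contra hcon
    push Not at hcon
    exact ha (Subtype.ext (funext hcon))
  have hpos : 0 < ‖(a : List ℕ → ℚ_[p]) i0‖ := norm_pos_iff.mpr hi0
  obtain ⟨i, hi, hmax⟩ := Set.exists_max_image _ (fun b => ‖(a : List ℕ → ℚ_[p]) b‖)
    (a.2 _ hpos) ⟨i0, by rw [Set.mem_ofPred_eq]⟩
  have hi' : ‖(a : List ℕ → ℚ_[p]) i0‖ ≤ ‖(a : List ℕ → ℚ_[p]) i‖ := hi
  refine ⟨i, norm_pos_iff.mp (lt_of_lt_of_le hpos hi'), ?_⟩
  intro b
  by_cases hb : ‖(a : List ℕ → ℚ_[p]) i0‖ ≤ ‖(a : List ℕ → ℚ_[p]) b‖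
  · exact hmax b hb
  · exact (not_le.mp hb).le.trans hi'

theorem exists_exact (a : (V p)) (ha : a ≠ 0) (hb : Ball a) :
    ∃ n : ℕ, BallR ((p : ℝ)⁻¹ ^ n) a ∧
      ∃ i, ‖(a : List ℕ → ℚ_[p]) i‖ = (p : ℝ)⁻¹ ^ n := by
  obtain ⟨i, hi, hmax⟩ := exists_max_coord a ha
  have h1 := Padic.norm_eq_zpow_neg_valuation hi
  have h2 : 0 ≤ ((a : List ℕ → ℚ_[p]) i).valuation := by
    rw [← Padic.norm_le_one_iff_val_nonneg]
    exact hb i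
  obtain ⟨n, hn⟩ := Int.eq_ofNat_of_zero_le h2
  have h3 : ‖(a : List ℕ → ℚ_[p]) i‖ = (p : ℝ)⁻¹ ^ n := by
    rw [h1, hn]
    rw [zpow_neg, inv_pow]
    norm_cast
  exact ⟨n, fun b => h3 ▸ hmax b, i, h3⟩

end Pool.Agent.Lib.MP_e12dda_al.Ins
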